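import Pool.Agent.H41.Lib.N915.WT.Saw
/-! # The transform of an interval along the multiples of `b ^ n / (b ^ k - 1)` -/

set_option autoImplicit false

namespace Pool.Agent.N915.WT

open Finset
open Pool.Agent.H534R3.UDist Pool.Agent.H534R3.Rota
open scoped Real

lemma sum_range_zmod {R : Type} [AddCommMonoid R] (M : ℕ) [NeZero M] (g : ZMod M → R) :
    ∑ p ∈ range M, g p = ∑ x : ZMod M, g x := by
  refine sum_bij' (fun p _ => (p : ZMod M)) (fun x _ => x.val) (fun _ _ => mem_univ _)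
    (fun x _ => mem_range.2 (ZMod.val_lt x)) (fun p hp => ?_) (fun x _ => ?_) (fun p _ => rfl)
  · exact ZMod.val_cast_of_lt (mem_range.1 hp)
  · exact ZMod.natCast_zmod_val x

/-- a sum over the residues modulo `M` does not change under multiplication by a unit -/
lemma sum_mul_unit {R : Type} [AddCommMonoid R] {M : ℕ} (hM : 0 < M) (F : ℕ → R)
    (hF : ∀ q, F (q + M) = F q) {c c' : ℕ} (hc : ((c * c' : ℕ) : ZMod M) = 1) :
    ∑ p ∈ range M, F (c * p) = ∑ p ∈ range M, F p := by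
  have : NeZero M := ⟨hM.ne'⟩
  have h1 : ∀ q : ℕ, F q = F (q % M) := by
    intro q
    have h2 : ∀ (m r : ℕ), F (r + M * m) = F r := by
      intro m
      induction m with
      | zero => intro r; simp
      | succ m ih => intro r; rw [Nat.mul_succ, ← Nat.add_assoc, hF, ih]
    conv_lhs => rw [← Nat.mod_add_div q M]
    exact h2 _ _
  have h2 : ∀ q : ℕ, F q = (fun x : ZMod M => F x.val) (q : ZMod M) := by
    intro q
    beta_reduce
    rw [ZMod.val_natCast]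
    exact h1 q
  have h3 : ∑ p ∈ range M, F (c * p) = ∑ p ∈ range M, (fun x : ZMod M => F ((c : ZMod M) * x).val) p :=
    sum_congr rfl fun p _ => by
      rw [h2 (c * p)]
      push_cast
      rfl
  have h4 : ∑ p ∈ range M, F p = ∑ p ∈ range M, (fun x : ZMod M => F x.val) p :=
    sum_congr rfl fun p _ => h2 p
  rw [h3, h4]
  have hu : (c : ZMod M) * c' = 1 := by exact_mod_cast hc
  let u : (ZMod M)ˣ := ⟨c, c', hu, by rw [mul_comm]; exact hu⟩
  exact (sum_range_zmod M (fun x : ZMod M => F ((c : ZMod M) * x).val)).trans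
    ((Equiv.sum_comp (Units.mulLeft u) (fun x : ZMod M => F x.val)).trans
      (sum_range_zmod M (fun x : ZMod M => F x.val)).symm)

lemma ind_add_int (B a : ℕ) (t : ℝ) (m : ℤ) : ind B a (t + m) = ind B a t := by
  unfold ind
  rw [Int.fract_add_intCast]

lemma ind_add_nat (B a : ℕ) (t : ℝ) (m : ℕ) : ind B a (t + m) = ind B a t := by
  exact_mod_cast ind_add_int B a t m

lemma ee_add_int (t : ℝ) (m : ℤ) : ee (t + m) = ee t := by
  rw [ee_add, ee_int, mul_one]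

lemma ee_sub_int (t : ℝ) (m : ℤ) : ee (t - m) = ee t := by
  have := ee_add_int t (-m)
  push_cast at this
  rwa [← sub_eq_add_neg] at this

lemma ee_nat_mul (n : ℕ) (t : ℝ) : ee (n * t) = ee t ^ n := by
  induction n with
  | zero => simp [ee_zero]
  | succ n ih =>
    rw [pow_succ, ← ih, ← ee_add]
    congr 1
    push_cast
    ring

lemma ee_ne_zero (t : ℝ) : ee t ≠ 0 := by
  intro h
  have := norm_ee t
  rw [h, norm_zero] at this
  exact zero_ne_one this

lemma ee_neg_inv (t : ℝ) : ee (-t) = (ee t)⁻¹ := by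
  apply eq_inv_of_mul_eq_one_left
  rw [← ee_add]
  simp [ee_zero]

lemma ee_int_mul (n : ℤ) (t : ℝ) : ee (n * t) = ee t ^ n := by
  obtain ⟨m, rfl | rfl⟩ := n.eq_nat_or_neg
  · rw [zpow_natCast]
    exact_mod_cast ee_nat_mul m t
  · rw [zpow_neg, zpow_natCast, ← ee_nat_mul, ← ee_neg_inv]
    congr 1
    push_cast
    ring

/-- the change of variables: `b ^ n` is replaced by the inverse factor in the frequency -/
lemma change {b k M : ℕ} (hM0 : 0 < M) (hM : M + 1 = b ^ k) (B a s : ℕ) (t : ℝ) (n j : ℕ)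
    (hnj : k ∣ n + j) :
    ∑ p ∈ range M, ee (-(s * (p / M))) * (ind B a (t + b ^ n * (p / M)) : ℂ) =
      ∑ p ∈ range M, ee (-((s * b ^ j : ℕ) / M)) ^ p * (ind B a (t + p / M) : ℂ) := by
  have hM' : (M : ℝ) ≠ 0 := by positivity
  have hb : ((b ^ k : ℕ) : ZMod M) = 1 := by
    rw [← hM]
    push_cast
    simp
  have hb2 : ((b ^ (n + j) : ℕ) : ZMod M) = 1 := by
    obtain ⟨q, hq⟩ := hnj
    rw [hq, pow_mul]
    push_cast at hb ⊢
    rw [hb, one_pow]
  obtain ⟨q, hq⟩ : ∃ q : ℤ, ((b ^ (n + j) : ℕ) : ℤ) = 1 + M * q := by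
    have h1 : (((b ^ (n + j) : ℕ) : ℤ) : ZMod M) = ((1 : ℤ) : ZMod M) := by
      push_cast at hb2 ⊢
      exact hb2
    rw [ZMod.intCast_eq_intCast_iff_dvd_sub] at h1
    obtain ⟨c, hc⟩ := h1
    refine ⟨-c, ?_⟩
    linarith
  have hqR : (b : ℝ) ^ n * (b : ℝ) ^ j = 1 + M * q := by
    rw [← pow_add]
    exact_mod_cast hq
  set F : ℕ → ℂ := fun q => ee (-((s * b ^ j : ℕ) / M)) ^ q * (ind B a (t + q / M) : ℂ) with hFdef
  have hF : ∀ q, F (q + M) = F q := by
    intro q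
    have e1 : ee (-((s * b ^ j : ℕ) / M)) ^ M = 1 := by
      rw [← ee_nat_mul]
      have : (M : ℝ) * (-((s * b ^ j : ℕ) / M)) = ((-((s * b ^ j : ℕ) : ℤ) : ℤ) : ℝ) := by
        push_cast
        field_simp
      rw [this, ee_int]
    have e2 : t + ((q + M : ℕ) : ℝ) / M = t + q / M + (1 : ℕ) := by
      push_cast
      field_simp
      ring
    simp only [hFdef]
    rw [pow_add, e1, mul_one, e2, ind_add_nat]
  have h := sum_mul_unit hM0 F hF (c := b ^ n) (c' := b ^ j) (by rw [← pow_add]; exact hb2)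
  rw [← h]
  refine sum_congr rfl fun p _ => ?_
  simp only [hFdef]
  have e3 : ee (-((s * b ^ j : ℕ) / M)) ^ (b ^ n * p) = ee (-(s * (p / M))) := by
    rw [← ee_nat_mul]
    have : ((b ^ n * p : ℕ) : ℝ) * (-((s * b ^ j : ℕ) / M)) = -(s * (p / M)) - ((s * p * q : ℤ) : ℝ) := by
      push_cast
      have e : (b : ℝ) ^ n * p * -(s * (b : ℝ) ^ j / M) = -(s * p * ((b : ℝ) ^ n * (b : ℝ) ^ j) / M) := by
        ring
      rw [e, hqR]
      field_simp
      ring
    rw [this, ee_sub_int]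
  have e4 : t + ((b ^ n * p : ℕ) : ℝ) / M = t + b ^ n * (p / M) := by
    push_cast
    ring
  rw [e3, e4]

/-- the transform of the interval -/
lemma trans {M B a : ℕ} (hM : 0 < M) (hB : 0 < B) (ha : a < B) {ζ : ℂ} (h1 : ζ ^ M = 1)
    (h2 : ζ ≠ 1) (t : ℝ) :
    ∑ p ∈ range M, ζ ^ p * (ind B a (t + p / M) : ℂ) =
      (ζ ^ (-⌊(M : ℝ) * (t - ((a : ℝ) + 1) / B)⌋) - ζ ^ (-⌊(M : ℝ) * (t - (a : ℝ) / B)⌋)) / (ζ - 1) := by
  have h3 : ζ - 1 ≠ 0 := sub_ne_zero.2 h2
  have h4 : ∑ p ∈ range M, ζ ^ p = 0 := by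
    have := mul_geom_sum ζ M
    rw [h1, sub_self] at this
    exact (mul_eq_zero.1 this).resolve_left h3
  have e1 : ∑ p ∈ range M, ζ ^ p * (ind B a (t + p / M) : ℂ) =
      1 / B * ∑ p ∈ range M, ζ ^ p + H M ζ (t - ((a : ℝ) + 1) / B) - H M ζ (t - (a : ℝ) / B) := by
    unfold H
    rw [mul_sum, ← sum_add_distrib, ← sum_sub_distrib]
    refine sum_congr rfl fun p _ => ?_
    rw [ind_eq hB ha]
    have e2 : t + (p : ℝ) / M - ((a : ℝ) + 1) / B = t - ((a : ℝ) + 1) / B + p / M := by ring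
    have e3 : t + (p : ℝ) / M - (a : ℝ) / B = t - (a : ℝ) / B + p / M := by ring
    rw [e2, e3]
    push_cast
    ring
  rw [e1, h4, saw hM h1 h2, saw hM h1 h2, mul_zero, zero_add, sub_div]

lemma norm_ee_sub_one (x : ℝ) : ‖ee x - 1‖ = 2 * |Real.sin (π * x)| := by
  have e1 : ee x - 1 = ee (x / 2) * (ee (x / 2) - ee (-(x / 2))) := by
    rw [mul_sub, ← ee_add, ← ee_add]
    have : x / 2 + x / 2 = x := by ring
    rw [this]
    simp [ee_zero]
  have e2 : ee (x / 2) - ee (-(x / 2)) = 2 * Complex.I * (Real.sin (π * x) : ℂ) := by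
    rw [ee, ee]
    have h1 : (2 * π * Complex.I * ((x / 2 : ℝ) : ℂ) : ℂ) = ((π * x : ℝ) : ℂ) * Complex.I := by
      push_cast
      ring
    have h2 : (2 * π * Complex.I * ((-(x / 2) : ℝ) : ℂ) : ℂ) = (((-(π * x)) : ℝ) : ℂ) * Complex.I := by
      push_cast
      ring
    rw [h1, h2, Complex.exp_mul_I, Complex.exp_mul_I]
    push_cast
    rw [Complex.cos_neg, Complex.sin_neg]
    ring
  rw [e1, norm_mul, norm_ee, one_mul, e2, norm_mul, norm_mul, Complex.norm_I, mul_one,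
    Complex.norm_real, Real.norm_eq_abs]
  norm_num

lemma norm_ee_ge {x δ : ℝ} (hδ : ∀ m : ℤ, δ ≤ |x - m|) : 4 * δ ≤ ‖ee x - 1‖ := by
  rw [norm_ee_sub_one]
  have h0 := hδ (round x)
  have h1 := abs_sub_round x
  set r := x - round x with hr
  have h2 : |Real.sin (π * x)| = |Real.sin (π * r)| := by
    have : π * x = π * r + (round x : ℤ) * π := by rw [hr]; ring
    rw [this, Real.sin_add_int_mul_pi, abs_mul]
    have : |((-1 : ℝ) ^ (round x))| = 1 := by
      rw [abs_zpow, abs_neg, abs_one, one_zpow]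
    rw [this, one_mul]
  rw [h2]
  have h3 : |Real.sin (π * r)| = Real.sin (π * |r|) := by
    rcases le_total 0 r with h | h
    · rw [abs_of_nonneg h, abs_of_nonneg]
      apply Real.sin_nonneg_of_nonneg_of_le_pi (by positivity)
      rw [abs_of_nonneg h] at h1
      nlinarith [Real.pi_pos]
    · rw [abs_of_nonpos h]
      rw [abs_of_nonpos h] at h1
      have : Real.sin (π * -r) = - Real.sin (π * r) := by rw [mul_neg, Real.sin_neg]
      rw [this, abs_of_nonpos]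
      have h5 : 0 ≤ Real.sin (π * -r) := by
        apply Real.sin_nonneg_of_nonneg_of_le_pi
        · exact mul_nonneg Real.pi_pos.le (by linarith)
        · nlinarith [Real.pi_pos]
      rw [this] at h5
      linarith
  rw [h3]
  have h4 := Real.mul_le_sin (x := π * |r|) (by positivity) (by nlinarith [Real.pi_pos])
  have h5 : 2 / π * (π * |r|) = 2 * |r| := by
    field_simp
  rw [h5] at h4
  linarith

lemma dist_lower {b k M s : ℕ} (hM : M + 1 = b ^ k) (hs : 2 * s ≤ M) (hM0 : 0 < M)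
    (hbs : ¬ b ∣ s) (j e : ℕ) (hje : j + e = k) (he : 1 ≤ e) (m : ℤ) :
    1 / (2 * (b : ℝ) ^ e) ≤ |((s * b ^ j : ℕ) : ℝ) / M - m| := by
  have hb0 : 0 < b := by
    rcases Nat.eq_zero_or_pos b with h | h
    · rw [h, zero_pow (by omega)] at hM
      omega
    · exact h
  have hbe : (0 : ℝ) < (b : ℝ) ^ e := by positivity
  have hMR : (0 : ℝ) < M := by positivity
  have hne : (s : ℤ) - m * b ^ e ≠ 0 := by
    intro h
    apply hbs
    have h1 : (b : ℤ) ∣ s := by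
      have h2 : (s : ℤ) = m * b ^ e := by linarith
      rw [h2]
      exact Dvd.dvd.mul_left (dvd_pow_self _ (by omega)) _
    exact_mod_cast h1
  have h1 : (1 : ℝ) ≤ |(s : ℝ) - m * (b : ℝ) ^ e| := by
    have h2 : (1 : ℤ) ≤ |(s : ℤ) - m * b ^ e| := Int.one_le_abs hne
    exact_mod_cast h2
  have h3 : (b : ℝ) ^ j * (b : ℝ) ^ e = M + 1 := by
    rw [← pow_add, hje]
    exact_mod_cast hM.symm
  have h4 : ((s * b ^ j : ℕ) : ℝ) / M - m =
      (M * ((s : ℝ) - m * (b : ℝ) ^ e) + s) / (M * (b : ℝ) ^ e) := by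
    push_cast
    rw [eq_div_iff (by positivity)]
    field_simp
    linear_combination (s : ℝ) * h3
  have hs' : 2 * (s : ℝ) ≤ M := by exact_mod_cast hs
  have hs0 : (0 : ℝ) ≤ s := Nat.cast_nonneg s
  have h5 : (M : ℝ) / 2 ≤ |M * ((s : ℝ) - m * (b : ℝ) ^ e) + s| := by
    have h6 : |M * ((s : ℝ) - m * (b : ℝ) ^ e)| = M * |(s : ℝ) - m * (b : ℝ) ^ e| := by
      rw [abs_mul, abs_of_pos hMR]
    have h7 : (M : ℝ) ≤ M * |(s : ℝ) - m * (b : ℝ) ^ e| := by nlinarith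
    have h8 := abs_sub_abs_le_abs_sub (M * ((s : ℝ) - m * (b : ℝ) ^ e)) (-(s : ℝ))
    rw [abs_neg, abs_of_nonneg hs0, sub_neg_eq_add, h6] at h8
    linarith
  rw [h4, abs_div, abs_of_pos (by positivity : (0 : ℝ) < M * (b : ℝ) ^ e), le_div_iff₀ (by positivity)]
  calc 1 / (2 * (b : ℝ) ^ e) * (M * (b : ℝ) ^ e) = M / 2 := by field_simp
    _ ≤ _ := h5

/-- the main term of the transform -/
noncomputable def A (M B a s b j : ℕ) : ℂ :=
  (ee (-((s * b ^ j : ℕ) * (((a : ℝ) + 1) / B))) - ee (-((s * b ^ j : ℕ) * ((a : ℝ) / B)))) /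
    (ee (-((s * b ^ j : ℕ) / M)) - 1)

lemma trans_approx {b k M s B a : ℕ} (hM : M + 1 = b ^ k) (hM0 : 0 < M) (hs : 2 * s ≤ M)
    (hbs : ¬ b ∣ s) (hB : 0 < B) (ha : a < B) (j : ℕ) (hj : j < k) (t : ℝ) :
    ‖∑ p ∈ range M, ee (-((s * b ^ j : ℕ) / M)) ^ p * (ind B a (t + p / M) : ℂ) -
      ee ((s * b ^ j : ℕ) * t) * A M B a s b j‖ ≤ 4 * π * s := by
  have hMR : (0 : ℝ) < M := by positivity
  obtain ⟨e, he1, he⟩ : ∃ e, j + e = k ∧ 1 ≤ e := ⟨k - j, by omega, by omega⟩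
  have hb0 : 0 < b := by
    rcases Nat.eq_zero_or_pos b with h | h
    · rw [h, zero_pow (by omega)] at hM
      omega
    · exact h
  have hbe : (0 : ℝ) < (b : ℝ) ^ e := by positivity
  have hD := norm_ee_ge (x := -(((s * b ^ j : ℕ) : ℝ) / M)) (δ := 1 / (2 * (b : ℝ) ^ e)) (fun m => by
    have := dist_lower hM hs hM0 hbs j e he1 he (-m)
    rw [← abs_neg]
    push_cast at this ⊢
    convert this using 2
    ring)
  set σ : ℕ := s * b ^ j with hσ
  set ζ := ee (-((σ : ℝ) / M)) with hζ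
  have hD' : 2 / (b : ℝ) ^ e ≤ ‖ζ - 1‖ := by
    refine le_trans (le_of_eq ?_) hD
    field_simp
    norm_num
  have hDpos : 0 < ‖ζ - 1‖ := lt_of_lt_of_le (by positivity) hD'
  have h2 : ζ ≠ 1 := by
    intro h
    rw [h, sub_self, norm_zero] at hDpos
    exact lt_irrefl _ hDpos
  have h3 : ζ - 1 ≠ 0 := sub_ne_zero.2 h2
  have h1 : ζ ^ M = 1 := by
    rw [hζ, ← ee_nat_mul]
    have : (M : ℝ) * (-((σ : ℝ) / M)) = ((-(σ : ℤ) : ℤ) : ℝ) := by
      push_cast
      field_simp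
    rw [this, ee_int]
  rw [trans hM0 hB ha h1 h2]
  have key : ∀ c : ℝ, ‖ζ ^ (-⌊(M : ℝ) * (t - c)⌋) - ee (σ * t) * ee (-(σ * c))‖ ≤ 2 * π * (σ / M) := by
    intro c
    have e1 : ζ ^ (-⌊(M : ℝ) * (t - c)⌋) =
        ee (σ * t) * ee (-(σ * c)) * ee (-(σ / M * Int.fract ((M : ℝ) * (t - c)))) := by
      rw [hζ, ← ee_int_mul, ← ee_add, ← ee_add]
      congr 1
      have := Int.fract_add_floor ((M : ℝ) * (t - c))
      push_cast
      have e2 : (⌊(M : ℝ) * (t - c)⌋ : ℝ) = M * (t - c) - Int.fract ((M : ℝ) * (t - c)) := by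
        linarith
      rw [e2]
      field_simp
      ring
    have e3 : ζ ^ (-⌊(M : ℝ) * (t - c)⌋) - ee (σ * t) * ee (-(σ * c)) =
        ee (σ * t) * ee (-(σ * c)) * (ee (-(σ / M * Int.fract ((M : ℝ) * (t - c)))) - ee 0) := by
      rw [e1, ee_zero]
      ring
    rw [e3, norm_mul, norm_mul, norm_ee, norm_ee, one_mul, one_mul]
    refine (ee_lip _ _).trans ?_
    rw [sub_zero, abs_neg, abs_mul, abs_of_nonneg (by positivity), abs_of_nonneg (Int.fract_nonneg _)]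
    have h5 := (Int.fract_lt_one ((M : ℝ) * (t - c))).le
    have h6 : (0 : ℝ) ≤ (σ : ℝ) / M := by positivity
    have h7 : (σ : ℝ) / M * Int.fract ((M : ℝ) * (t - c)) ≤ σ / M := by nlinarith
    have := Real.pi_pos
    nlinarith
  have e5 : (ζ ^ (-⌊(M : ℝ) * (t - ((a : ℝ) + 1) / B)⌋) - ζ ^ (-⌊(M : ℝ) * (t - (a : ℝ) / B)⌋)) /
      (ζ - 1) - ee (σ * t) * A M B a s b j =
      ((ζ ^ (-⌊(M : ℝ) * (t - ((a : ℝ) + 1) / B)⌋) - ee (σ * t) * ee (-(σ * (((a : ℝ) + 1) / B)))) -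
        (ζ ^ (-⌊(M : ℝ) * (t - (a : ℝ) / B)⌋) - ee (σ * t) * ee (-(σ * ((a : ℝ) / B))))) / (ζ - 1) := by
    unfold A
    rw [← hσ, ← hζ]
    field_simp
    ring
  rw [e5, norm_div, div_le_iff₀ hDpos]
  refine (norm_sub_le _ _).trans ?_
  refine (add_le_add (key _) (key _)).trans ?_
  have h8 : (b : ℝ) ^ j * (b : ℝ) ^ e = M + 1 := by
    rw [← pow_add, he1]
    exact_mod_cast hM.symm
  have h9 : (σ : ℝ) = s * (b : ℝ) ^ j := by rw [hσ]; push_cast; ring
  have h10 : (1 : ℝ) ≤ M := by exact_mod_cast hM0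
  have h11 : (b : ℝ) ^ j / M ≤ 2 / (b : ℝ) ^ e := by
    rw [div_le_div_iff₀ hMR hbe, h8]
    linarith
  calc 2 * π * (σ / M) + 2 * π * (σ / M) = 4 * π * s * ((b : ℝ) ^ j / M) := by rw [h9]; ring
    _ ≤ 4 * π * s * (2 / (b : ℝ) ^ e) := by
        apply mul_le_mul_of_nonneg_left h11
        positivity
    _ ≤ 4 * π * s * ‖ζ - 1‖ := by
        apply mul_le_mul_of_nonneg_left hD'
        positivity

end Pool.Agent.N915.WT
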