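import Pool.Agent.H41.Lib.N915.WT.Core
/-! # From one-sided bounds for one word to exponential sums -/

set_option autoImplicit false

namespace Pool.Agent.N915.WT

open Finset Filter Topology
open Pool.Agent.H534R3.UDist Pool.Agent.H534R3.Rota
open scoped Real

/-- one-sided bound with deficiency `δ` for the frequency of the word in `z`; `σ = 1` for lower
bounds and `σ = -1` for upper bounds -/
def OS (σ δ : ℝ) (b B a : ℕ) (z : ℝ) : Prop :=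
  ∀ ε : ℝ, 0 < ε → ∀ᶠ N : ℕ in atTop, -((δ + ε) * N) ≤ σ * (Sw b B a z N - N / B)

lemma Sw_step (b B a : ℕ) (z : ℝ) (N : ℕ) :
    Sw b B a (b * z) N = Sw b B a z (N + 1) - ind B a z := by
  unfold Sw
  rw [sum_range_succ']
  have : ∀ n ∈ range N, ind B a ((b : ℝ) ^ n * (b * z)) = ind B a ((b : ℝ) ^ (n + 1) * z) := by
    intro n _
    congr 1
    rw [pow_succ]
    ring
  rw [sum_congr rfl this]
  simp

lemma OS_step {σ δ : ℝ} (hσ : |σ| = 1) {b B a : ℕ} (hB : 1 ≤ B) {z : ℝ}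
    (h : OS σ δ b B a z) : OS σ δ b B a (b * z) := by
  intro ε hε
  have h1 := h (ε / 2) (by positivity)
  have h2 : ∀ᶠ N : ℕ in atTop, -((δ + ε / 2) * ((N + 1 : ℕ) : ℝ)) ≤
      σ * (Sw b B a z (N + 1) - ((N + 1 : ℕ) : ℝ) / B) := (tendsto_add_atTop_nat 1).eventually h1
  obtain ⟨N₀, hN₀⟩ := exists_nat_ge ((δ + ε / 2 + 2) / (ε / 2))
  filter_upwards [h2, eventually_ge_atTop N₀] with N hN hN2
  have h3 : (δ + ε / 2 + 2) / (ε / 2) ≤ N := hN₀.trans (by exact_mod_cast hN2)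
  rw [div_le_iff₀ (by positivity)] at h3
  rw [Sw_step]
  have hi0 := ind_nonneg B a z
  have hi1 := ind_le_one B a z
  have hB' : (1 : ℝ) ≤ B := by exact_mod_cast hB
  have hB2 : 0 ≤ 1 / (B : ℝ) ∧ 1 / (B : ℝ) ≤ 1 := ⟨by positivity, by
    rw [div_le_one (by linarith)]
    exact hB'⟩
  have h4 : |σ * (ind B a z - 1 / B)| ≤ 2 := by
    rw [abs_mul, hσ, one_mul, abs_le]
    constructor <;> linarith [hB2.1, hB2.2]
  have h5 := (abs_le.1 h4).2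
  have h6 : σ * (Sw b B a z (N + 1) - ind B a z - N / B) =
      σ * (Sw b B a z (N + 1) - ((N + 1 : ℕ) : ℝ) / B) - σ * (ind B a z - 1 / B) := by
    push_cast
    ring
  rw [h6]
  push_cast at hN ⊢
  nlinarith

lemma OS_pow {σ δ : ℝ} (hσ : |σ| = 1) (hδ : 0 ≤ δ) {b B a : ℕ} (hB : 1 ≤ B) {z : ℝ}
    (h : OS σ δ b B a z) (i : ℕ) : OS σ δ b B a (b ^ i * z) := by
  induction i with
  | zero => simpa using h
  | succ i ih =>
    have := OS_step hσ hB ih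
    rwa [← mul_assoc, ← pow_succ'] at this

/-- the hypothesis for all rational translates -/
def HY (σ δ : ℝ) (b B a : ℕ) (y : ℝ) : Prop := ∀ r : ℚ, OS σ δ b B a (y + r)

lemma HY_pow {σ δ : ℝ} (hσ : |σ| = 1) (hδ : 0 ≤ δ) {b B a : ℕ} (hb : 0 < b) (hB : 1 ≤ B) {y : ℝ}
    (h : HY σ δ b B a y) (i : ℕ) : HY σ δ b B a (b ^ i * y) := by
  intro r
  have h1 := OS_pow hσ hδ hB (h (r / (b : ℚ) ^ i)) i
  have hb' : (b : ℝ) ^ i ≠ 0 := by positivity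
  have e : (b : ℝ) ^ i * (y + ((r / (b : ℚ) ^ i : ℚ) : ℝ)) = b ^ i * y + r := by
    push_cast
    field_simp
  rwa [e] at h1

lemma W_small_step (b s : ℕ) (y : ℝ) (N r : ℕ) : ‖W b s y (N + r)‖ ≤ ‖W b s y N‖ + r := by
  unfold W
  rw [sum_range_add]
  refine (norm_add_le _ _).trans (add_le_add le_rfl ?_)
  refine (norm_sum_le _ _).trans (le_of_eq ?_)
  simp [norm_ee]

lemma abs_sum_dev {M : ℕ} {σ η T : ℝ} (hσ : |σ| = 1) (x : ℕ → ℝ)
    (h : ∀ p ∈ range M, -η ≤ σ * x p) (hT : |∑ p ∈ range M, x p| ≤ T) (hη : 0 ≤ η) :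
    ∑ p ∈ range M, |x p| ≤ T + 2 * M * η := by
  have h1 : ∀ p ∈ range M, |x p| ≤ σ * x p + 2 * η := by
    intro p hp
    have h2 := h p hp
    have h3 : |x p| = |σ * x p| := by rw [abs_mul, hσ, one_mul]
    rw [h3, abs_le]
    constructor <;> linarith
  refine (sum_le_sum h1).trans ?_
  rw [sum_add_distrib, ← mul_sum, sum_const, card_range, nsmul_eq_mul]
  have h4 : σ * ∑ p ∈ range M, x p ≤ T := by
    refine (le_abs_self _).trans ?_
    rw [abs_mul, hσ, one_mul]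
    exact hT
  linarith

/-- the bound for one `k` -/
lemma W_limit {b k M s l a : ℕ} (hb : 2 ≤ b) (hM : M + 1 = b ^ k) (hM0 : 0 < M) (hs1 : 1 ≤ s)
    (hs : 2 * s ≤ M) (hbs : ¬ b ∣ s) (ha : a < b ^ l) (hk : 1 ≤ k) (hl : l ≤ k)
    {c : ℝ} (hc : 0 < c) (hκ : c * M ≤ ‖∑ j ∈ range l, A M (b ^ l) a s b j‖)
    {σ δ : ℝ} (hσ : |σ| = 1) (hδ : 0 ≤ δ) {y : ℝ} (hy : HY σ δ b (b ^ l) a y) (ε : ℝ) (hε : 0 < ε) :
    ∀ᶠ N : ℕ in atTop, ‖W b s y N‖ ≤ (k / (c * M) * (1 + 4 * π * s) + 2 * k * δ / c + ε) * N := by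
  have hMR : (0 : ℝ) < M := by exact_mod_cast hM0
  have hkR : (1 : ℝ) ≤ k := by exact_mod_cast hk
  have hb0 : 0 < b := by omega
  set D := ‖∑ j ∈ range l, A M (b ^ l) a s b j - A M (b ^ l) a s b 0‖ with hD
  -- the one-sided bounds for all translates
  obtain ⟨ε₁, hε₁, hε₁2⟩ : ∃ ε₁ : ℝ, 0 < ε₁ ∧ 2 * k * ε₁ / c ≤ ε / 2 := by
    refine ⟨c * ε / (4 * k), by positivity, le_of_eq ?_⟩
    field_simp
    norm_num
  have h1 : ∀ᶠ N : ℕ in atTop, ∀ i ∈ range k, ∀ p ∈ range M,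
      -((δ + ε₁) * N) ≤ σ * (Sw b (b ^ l) a (b ^ i * y + p / M) N - N / (b ^ l : ℕ)) := by
    rw [eventually_all_finset]
    intro i _
    rw [eventually_all_finset]
    intro p _
    have h2 := HY_pow hσ hδ hb0 (Nat.one_le_iff_ne_zero.2 (by positivity)) hy i ((p : ℚ) / M) ε₁ hε₁
    have e : b ^ i * y + (((p : ℚ) / M : ℚ) : ℝ) = b ^ i * y + p / M := by push_cast; ring
    rw [e] at h2
    exact h2
  obtain ⟨N₀, hN₀⟩ := eventually_atTop.1 h1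
  obtain ⟨N₁, hN₁⟩ := exists_nat_ge ((2 * k * D / (c * M) + k) / (ε / 2))
  filter_upwards [eventually_ge_atTop (N₀ + k), eventually_ge_atTop N₁] with N hN hN2
  set Q := N / k with hQ
  have hQ1 : k * Q + N % k = N := Nat.div_add_mod N k
  have hQ2 : N % k < k := Nat.mod_lt _ (by omega)
  have hQ3 : N₀ ≤ k * Q := by omega
  have hQ4 : ((k * Q : ℕ) : ℝ) ≤ N := by exact_mod_cast (by omega : k * Q ≤ N)
  have hW := W_bound (Q := Q) hb0 hM hM0 hs1 hs hbs ha hk hl y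
  have h2 : ∀ i ∈ range k, ∑ p ∈ range M,
      |Sw b (b ^ l) a (b ^ i * y + p / M) (k * Q) - (k * Q : ℕ) / (b ^ l : ℕ)| ≤
      (k * Q : ℕ) + 2 * M * ((δ + ε₁) * (k * Q : ℕ)) := by
    intro i hi
    exact abs_sum_dev hσ _ (fun p hp => hN₀ _ hQ3 i hi p hp)
      (sum_Sw hM hM0 hb0 ha (b ^ i * y) (k * Q)) (by positivity)
  have h3 := sum_le_sum h2
  rw [sum_const, card_range, nsmul_eq_mul] at h3
  have h4 : c * M * ‖W b s y (k * Q)‖ ≤
      k * ((k * Q : ℕ) + 2 * M * ((δ + ε₁) * (k * Q : ℕ))) + 4 * π * s * k * (k * Q : ℕ) + 2 * k * D := by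
    refine (mul_le_mul_of_nonneg_right hκ (norm_nonneg _)).trans (hW.trans ?_)
    rw [← hD]
    linarith
  have h5 : k * (((k * Q : ℕ) : ℝ) + 2 * M * ((δ + ε₁) * (k * Q : ℕ))) +
      4 * π * s * k * (k * Q : ℕ) + 2 * k * D ≤
      (k * (1 + 4 * π * s) + 2 * k * M * (δ + ε₁)) * N + 2 * k * D := by
    have : k * (((k * Q : ℕ) : ℝ) + 2 * M * ((δ + ε₁) * (k * Q : ℕ))) +
      4 * π * s * k * (k * Q : ℕ) + 2 * k * D =
      (k * (1 + 4 * π * s) + 2 * k * M * (δ + ε₁)) * (k * Q : ℕ) + 2 * k * D := by ring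
    rw [this]
    have h6 : 0 ≤ (k * (1 + 4 * π * s) + 2 * k * M * (δ + ε₁)) := by positivity
    have := mul_le_mul_of_nonneg_left hQ4 h6
    linarith
  have h6 : ‖W b s y (k * Q)‖ ≤
      ((k * (1 + 4 * π * s) + 2 * k * M * (δ + ε₁)) * N + 2 * k * D) / (c * M) := by
    rw [le_div_iff₀ (by positivity)]
    linarith
  have h7 := W_small_step b s y (k * Q) (N % k)
  rw [hQ1] at h7
  have h8 : ((N % k : ℕ) : ℝ) ≤ k := by exact_mod_cast hQ2.le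
  have h9 : (2 * k * D / (c * M) + k) / (ε / 2) ≤ N := hN₁.trans (by exact_mod_cast hN2)
  rw [div_le_iff₀ (by positivity)] at h9
  have h10 : ((k * (1 + 4 * π * s) + 2 * k * M * (δ + ε₁)) * N + 2 * k * D) / (c * M) =
      (k / (c * M) * (1 + 4 * π * s) + 2 * k * δ / c + 2 * k * ε₁ / c) * N + 2 * k * D / (c * M) := by
    field_simp
    ring
  rw [h10] at h6
  have hN0 : (0 : ℝ) ≤ N := Nat.cast_nonneg N
  have h11 := mul_le_mul_of_nonneg_right hε₁2 hN0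
  nlinarith

/-- **The quantitative theorem.** -/
theorem quant {b l a : ℕ} (hb : 2 ≤ b) (hl : 1 ≤ l) (ha : a < b ^ l) (s : ℕ) (hs : 1 ≤ s) :
    ∃ C : ℝ, 0 < C ∧ ∃ k₀ : ℕ, ∀ k : ℕ, k₀ ≤ k → ∀ (σ δ : ℝ), |σ| = 1 → 0 ≤ δ → ∀ y : ℝ,
      HY σ δ b (b ^ l) a y → ∀ ε : ℝ, 0 < ε →
        ∀ᶠ N : ℕ in atTop, ‖W b s y N‖ ≤ (C * k * (δ + 1 / b ^ k) + ε) * N := by
  -- reduction to the case `¬ b ∣ s`
  obtain ⟨v, s₀, hs₀, hsv⟩ : ∃ v s₀ : ℕ, ¬ b ∣ s₀ ∧ s = b ^ v * s₀ := by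
    obtain ⟨v, s₀, h1, h2⟩ := Nat.exists_eq_pow_mul_and_not_dvd (by omega : s ≠ 0) b (by omega)
    exact ⟨v, s₀, h1, h2⟩
  have hs1 : 1 ≤ s₀ := by
    rcases Nat.eq_zero_or_pos s₀ with h | h
    · exact absurd (h ▸ dvd_zero b) hs₀
    · exact h
  obtain ⟨c, hc, M₀, hM₀⟩ := coef_lower (a := a) hb hl hs₀
  have hlt : ∀ k : ℕ, k < b ^ k := fun k => Nat.lt_pow_self (by omega)
  have hpi := Real.pi_pos
  refine ⟨2 * (1 + 4 * π * s₀) / c, by positivity, M₀ + 2 * s₀ + l + 1, fun k hk σ δ hσ hδ y hy ε hε => ?_⟩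
  have hk2 := hlt k
  obtain ⟨M, hM⟩ : ∃ M, M + 1 = b ^ k := ⟨b ^ k - 1, by omega⟩
  have hM0 : 0 < M := by omega
  have h1 := W_limit (y := b ^ v * y) hb hM hM0 hs1 (by omega) hs₀ ha (by omega) (by omega) hc
    (hM₀ M (by omega)) hσ hδ (HY_pow hσ hδ (by omega) (Nat.one_le_iff_ne_zero.2 (by positivity)) hy v) ε hε
  filter_upwards [h1] with N hN
  have e1 : W b s y N = W b s₀ (b ^ v * y) N := by
    unfold W
    refine sum_congr rfl fun n _ => ?_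
    congr 1
    rw [hsv]
    push_cast
    ring
  rw [e1]
  refine hN.trans (mul_le_mul_of_nonneg_right ?_ (Nat.cast_nonneg _))
  have hMR : (0 : ℝ) < M := by exact_mod_cast hM0
  have hMb : (b : ℝ) ^ k = M + 1 := by exact_mod_cast hM.symm
  have hM1 : (1 : ℝ) ≤ M := by exact_mod_cast hM0
  have h2 : 1 / (M : ℝ) ≤ 2 * (1 / (b : ℝ) ^ k) := by
    rw [hMb, mul_one_div, div_le_div_iff₀ hMR (by linarith)]
    linarith
  have h3 : (k : ℝ) / (c * M) * (1 + 4 * π * s₀) = k * (1 + 4 * π * s₀) / c * (1 / M) := by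
    field_simp
  have h4 : k * (1 + 4 * π * s₀) / c * (1 / (M : ℝ)) ≤ k * (1 + 4 * π * s₀) / c * (2 * (1 / (b : ℝ) ^ k)) :=
    mul_le_mul_of_nonneg_left h2 (by positivity)
  have h5 : 2 * k * δ / c ≤ 2 * (1 + 4 * π * s₀) / c * k * δ := by
    have h6 : (1 : ℝ) ≤ 1 + 4 * π * s₀ := by
      have : 0 ≤ 4 * π * s₀ := by positivity
      linarith
    have h7 : 2 * (k : ℝ) * δ / c = 2 * 1 / c * k * δ := by ring
    rw [h7]
    gcongr
  rw [h3]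
  calc k * (1 + 4 * π * s₀) / c * (1 / (M : ℝ)) + 2 * k * δ / c + ε ≤
      k * (1 + 4 * π * s₀) / c * (2 * (1 / (b : ℝ) ^ k)) + 2 * (1 + 4 * π * s₀) / c * k * δ + ε := by
        linarith
    _ = 2 * (1 + 4 * π * s₀) / c * k * (δ + 1 / (b : ℝ) ^ k) + ε := by ring

/-- the qualitative theorem -/
theorem weyl_of {b l a : ℕ} (hb : 2 ≤ b) (hl : 1 ≤ l) (ha : a < b ^ l) {σ : ℝ} (hσ : |σ| = 1)
    {y : ℝ} (hy : HY σ 0 b (b ^ l) a y) : Weyl (fun n => (b : ℝ) ^ n * y) := by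
  intro s hs
  obtain ⟨C, hC, k₀, h⟩ := quant hb hl ha s hs
  rw [Metric.tendsto_atTop]
  intro ε hε
  -- choose `k`
  have h1 : Tendsto (fun k : ℕ => C * k * (0 + 1 / (b : ℝ) ^ k)) atTop (𝓝 0) := by
    have h2 : Tendsto (fun k : ℕ => (k : ℝ) / (b : ℝ) ^ k) atTop (𝓝 0) := by
      have h3 := tendsto_pow_const_div_const_pow_of_one_lt 1 (r := (b : ℝ)) (by
        exact_mod_cast (by omega : 1 < b))
      simpa using h3
    have h3 := h2.const_mul C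
    rw [mul_zero] at h3
    refine h3.congr fun k => ?_
    ring
  obtain ⟨k₁, hk₁⟩ := eventually_atTop.1 (h1.eventually (gt_mem_nhds (by positivity : (0 : ℝ) < ε / 2)))
  have h2 := h (max k₀ k₁) (le_max_left _ _) σ 0 hσ le_rfl y hy (ε / 4) (by positivity)
  have h3 := hk₁ (max k₀ k₁) (le_max_right _ _)
  obtain ⟨N₀, hN₀⟩ := eventually_atTop.1 (h2.and (eventually_gt_atTop 0))
  refine ⟨N₀, fun N hN => ?_⟩
  obtain ⟨h4, h5⟩ := hN₀ N hN
  have hN0 : (0 : ℝ) < N := by exact_mod_cast h5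
  rw [Real.dist_eq, sub_zero, abs_of_nonneg (by positivity), div_lt_iff₀ hN0]
  unfold W at h4
  refine lt_of_le_of_lt h4 (mul_lt_mul_of_pos_right ?_ hN0)
  linarith

end Pool.Agent.N915.WT
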