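import Pool.Agent.H41.Lib.H534R3.WE
/-! # The discrete Fourier transform of the sawtooth function and of intervals -/

set_option autoImplicit false

namespace Pool.Agent.N915.WT

open Finset
open Pool.Agent.H534R3.UDist Pool.Agent.H534R3.Rota
open scoped Real

lemma sum_mul_pow (ζ : ℂ) (n : ℕ) :
    (ζ - 1) * ∑ p ∈ range n, (p : ℂ) * ζ ^ p = n * ζ ^ n - ∑ p ∈ range n, ζ ^ (p + 1) := by
  induction n with
  | zero => simp
  | succ n ih =>
    rw [sum_range_succ, mul_add, ih, sum_range_succ]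
    push_cast
    ring

/-- the transform of the sawtooth function -/
noncomputable def H (M : ℕ) (ζ : ℂ) (x : ℝ) : ℂ :=
  ∑ p ∈ range M, ζ ^ p * ((Int.fract (x + p / M) : ℝ) : ℂ)

lemma H_shift {M : ℕ} (hM : 0 < M) {ζ : ℂ} (h1 : ζ ^ M = 1) (x : ℝ) :
    ζ * H M ζ (x + 1 / M) = H M ζ x := by
  have hM' : (M : ℝ) ≠ 0 := by positivity
  have e1 : ζ * H M ζ (x + 1 / M) =
      ∑ p ∈ range M, ζ ^ (p + 1) * ((Int.fract (x + ((p + 1 : ℕ) : ℝ) / M) : ℝ) : ℂ) := by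
    unfold H
    rw [mul_sum]
    refine sum_congr rfl fun p _ => ?_
    have : x + 1 / M + (p : ℝ) / M = x + ((p + 1 : ℕ) : ℝ) / M := by
      push_cast
      ring
    rw [this]
    ring
  have e2 := sum_range_succ' (fun p : ℕ => ζ ^ p * ((Int.fract (x + (p : ℝ) / M) : ℝ) : ℂ)) M
  have e3 := sum_range_succ (fun p : ℕ => ζ ^ p * ((Int.fract (x + (p : ℝ) / M) : ℝ) : ℂ)) M
  rw [e1]
  have e4 : x + (M : ℝ) / M = x + 1 := by rw [div_self hM']
  beta_reduce at e2 e3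
  rw [e4, h1, Int.fract_add_one] at e3
  have e5 : x + ((0 : ℕ) : ℝ) / M = x := by simp
  rw [e5] at e2
  unfold H
  linear_combination e3 - e2

lemma H_int {M : ℕ} (hM : 0 < M) {ζ : ℂ} (h1 : ζ ^ M = 1) (x : ℝ) (q : ℤ) :
    H M ζ (x + q / M) = ζ ^ (-q) * H M ζ x := by
  have hz : ζ ≠ 0 := by
    rintro rfl
    rw [zero_pow hM.ne'] at h1
    exact zero_ne_one h1
  induction q using Int.induction_on with
  | zero => simp
  | succ i ih =>
    have h := H_shift hM h1 (x + (i : ℤ) / M)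
    have e : x + ((i : ℤ) : ℝ) / M + 1 / M = x + (((i : ℤ) + 1 : ℤ) : ℝ) / M := by
      push_cast
      ring
    rw [e, ih] at h
    have e2 : ζ ^ (-((i : ℤ) + 1)) = ζ⁻¹ * ζ ^ (-(i : ℤ)) := by
      rw [neg_add, zpow_add₀ hz, zpow_neg_one]
      ring
    rw [e2, mul_assoc, ← h, ← mul_assoc, inv_mul_cancel₀ hz, one_mul]
  | pred i ih =>
    have h := H_shift hM h1 (x + ((-(i : ℤ) - 1 : ℤ) : ℝ) / M)
    have e : x + ((-(i : ℤ) - 1 : ℤ) : ℝ) / M + 1 / M = x + ((-(i : ℤ) : ℤ) : ℝ) / M := by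
      push_cast
      ring
    rw [e, ih] at h
    have e2 : ζ ^ (-(-(i : ℤ) - 1)) = ζ * ζ ^ (-(-(i : ℤ))) := by
      rw [show (-(-(i : ℤ) - 1)) = 1 + (-(-(i : ℤ))) by ring, zpow_add₀ hz, zpow_one]
    rw [e2, ← h]
    ring

lemma H_base {M : ℕ} (hM : 0 < M) (ζ : ℂ) (θ : ℝ) (h0 : 0 ≤ θ) (h1 : θ < 1) :
    H M ζ (θ / M) = (θ * ∑ p ∈ range M, ζ ^ p + ∑ p ∈ range M, (p : ℂ) * ζ ^ p) / M := by
  have hM' : (0 : ℝ) < M := by positivity
  unfold H
  rw [mul_sum, ← sum_add_distrib, sum_div]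
  refine sum_congr rfl fun p hp => ?_
  have hp' : (p : ℝ) + 1 ≤ M := by exact_mod_cast mem_range.1 hp
  have e1 : Int.fract (θ / M + p / M : ℝ) = (θ + p) / M := by
    rw [← add_div]
    rw [Int.fract_eq_self]
    constructor
    · positivity
    · rw [div_lt_one hM']
      linarith
  rw [e1]
  push_cast
  ring

lemma H_eq {M : ℕ} (hM : 0 < M) {ζ : ℂ} (h1 : ζ ^ M = 1) (x : ℝ) :
    H M ζ x = ζ ^ (-⌊(M : ℝ) * x⌋) *
      ((Int.fract ((M : ℝ) * x) : ℝ) * ∑ p ∈ range M, ζ ^ p + ∑ p ∈ range M, (p : ℂ) * ζ ^ p) / M := by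
  have hM' : (0 : ℝ) < M := by positivity
  have e : x = Int.fract ((M : ℝ) * x) / M + (⌊(M : ℝ) * x⌋ : ℤ) / M := by
    rw [← add_div, Int.fract_add_floor]
    field_simp
  conv_lhs => rw [e]
  rw [H_int hM h1, H_base hM ζ _ (Int.fract_nonneg _) (Int.fract_lt_one _)]
  ring

lemma saw {M : ℕ} (hM : 0 < M) {ζ : ℂ} (h1 : ζ ^ M = 1) (h2 : ζ ≠ 1) (x : ℝ) :
    H M ζ x = ζ ^ (-⌊(M : ℝ) * x⌋) / (ζ - 1) := by
  have hM' : (M : ℂ) ≠ 0 := by exact_mod_cast hM.ne'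
  have h3 : ζ - 1 ≠ 0 := sub_ne_zero.2 h2
  have h4 : ∑ p ∈ range M, ζ ^ p = 0 := by
    have := mul_geom_sum ζ M
    rw [h1, sub_self] at this
    exact (mul_eq_zero.1 this).resolve_left h3
  have h5 : ∑ p ∈ range M, ζ ^ (p + 1) = 0 := by
    simp_rw [pow_succ]
    rw [← sum_mul, h4, zero_mul]
  have h6 := sum_mul_pow ζ M
  rw [h5, h1] at h6
  rw [H_eq hM h1, h4]
  have h7 : ∑ p ∈ range M, (p : ℂ) * ζ ^ p = M / (ζ - 1) := by
    rw [eq_div_iff h3]
    linear_combination h6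
  rw [h7]
  field_simp
  ring

/-- Hermite's identity -/
lemma hermite {M : ℕ} (hM : 0 < M) (x : ℝ) :
    ∑ p ∈ range M, Int.fract (x + p / M : ℝ) = Int.fract ((M : ℝ) * x) + (M - 1) / 2 := by
  have h := H_eq hM (one_pow M) x
  have hM' : (M : ℂ) ≠ 0 := by exact_mod_cast hM.ne'
  unfold H at h
  simp only [one_pow, one_mul, one_zpow, mul_one, sum_const, card_range, nsmul_eq_mul] at h
  have h2 : (∑ p ∈ range M, (p : ℂ)) * 2 = M * (M - 1) := by
    have := Finset.sum_range_id_mul_two M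
    have h3 : ((∑ p ∈ range M, p : ℕ) : ℂ) * 2 = (M : ℂ) * ((M - 1 : ℕ) : ℂ) := by
      exact_mod_cast this
    rw [Nat.cast_sum, Nat.cast_sub hM] at h3
    simpa using h3
  have h3 : (∑ p ∈ range M, (p : ℂ)) = M * (M - 1) / 2 := by
    linear_combination h2 / 2
  rw [h3] at h
  have h4 : (((∑ p ∈ range M, Int.fract (x + p / M : ℝ)) : ℝ) : ℂ) =
      ((Int.fract ((M : ℝ) * x) + (M - 1) / 2 : ℝ) : ℂ) := by
    push_cast
    rw [h]
    field_simp
  exact_mod_cast h4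

/-- the indicator function of the interval `[a / B, (a + 1) / B)` modulo one -/
noncomputable def ind (B a : ℕ) (t : ℝ) : ℝ :=
  if (a : ℝ) / B ≤ Int.fract t ∧ Int.fract t < ((a : ℝ) + 1) / B then 1 else 0

lemma ind_nonneg (B a : ℕ) (t : ℝ) : 0 ≤ ind B a t := by
  unfold ind
  split_ifs <;> norm_num

lemma ind_le_one (B a : ℕ) (t : ℝ) : ind B a t ≤ 1 := by
  unfold ind
  split_ifs <;> norm_num

lemma fract_sub_of {t c : ℝ} (hc0 : 0 ≤ c) (hc1 : c ≤ 1) :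
    Int.fract (t - c) = Int.fract t - c + if c ≤ Int.fract t then 0 else 1 := by
  have h0 := Int.fract_nonneg t
  have h1 := Int.fract_lt_one t
  have h2 := Int.fract_add_floor t
  split_ifs with h
  · rw [Int.fract_eq_iff]
    refine ⟨by linarith, by linarith, ⌊t⌋, by linarith⟩
  · push Not at h
    rw [Int.fract_eq_iff]
    refine ⟨by linarith, by linarith, ⌊t⌋ - 1, by push_cast; linarith⟩

lemma ind_eq {B a : ℕ} (hB : 0 < B) (ha : a < B) (t : ℝ) :
    ind B a t = 1 / B + Int.fract (t - ((a : ℝ) + 1) / B) - Int.fract (t - (a : ℝ) / B) := by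
  have hB' : (0 : ℝ) < B := by positivity
  have ha' : (a : ℝ) + 1 ≤ B := by exact_mod_cast ha
  have g1 : ((a : ℝ) + 1) / B ≤ 1 := by rw [div_le_one hB']; exact ha'
  have g2 : (a : ℝ) / B < ((a : ℝ) + 1) / B := by
    apply div_lt_div_of_pos_right _ hB'
    linarith
  rw [fract_sub_of (by positivity) g1, fract_sub_of (by positivity) (by linarith)]
  have g3 : ((a : ℝ) + 1) / B = a / B + 1 / B := add_div _ _ _
  unfold ind
  split_ifs with h1 h2 h3 h4 h5 <;> try (push Not at *)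
  all_goals first
    | (exfalso; linarith [h1.1, h1.2])
    | linarith
    | (exfalso; rename_i h6; linarith [h1 h6])

end Pool.Agent.N915.WT
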