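import Pool.Agent.H41.Lib.N915.WT.Limit
/-! # Rational affine images of a normal number -/

set_option autoImplicit false

namespace Pool.Agent.N915.WT

open Finset Filter Topology
open Pool.Agent.H534R3.UDist Pool.Agent.H534R3.Rota
open scoped Real

lemma weyl_int {x : ℕ → ℝ} (hx : UD x) (g : ℤ) (hg : g ≠ 0) :
    Tendsto (fun N : ℕ => ‖∑ n ∈ range N, ee (g * x n)‖ / (N : ℝ)) atTop (𝓝 0) := by
  obtain ⟨m, rfl | rfl⟩ := g.eq_nat_or_neg
  · have hm : 1 ≤ m := by
      have : m ≠ 0 := by exact_mod_cast hg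
      omega
    exact_mod_cast ud_weyl x hx m hm
  · have hm : 1 ≤ m := by
      have : m ≠ 0 := by
        intro h
        apply hg
        rw [h]
        rfl
      omega
    refine (ud_weyl x hx m hm).congr fun N => ?_
    congr 1
    have h2 : ∑ n ∈ range N, ee (((-(m : ℤ) : ℤ) : ℝ) * x n) =
        (starRingEnd ℂ) (∑ n ∈ range N, ee (m * x n)) := by
      rw [map_sum]
      refine sum_congr rfl fun n _ => ?_
      rw [← ee_neg]
      congr 1
      push_cast
      ring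
    rw [h2, Complex.norm_conj]

lemma shift_bound (f : ℕ → ℂ) (hf : ∀ n, ‖f n‖ ≤ 1) (N j : ℕ) :
    ‖∑ n ∈ range N, f n - ∑ n ∈ range N, f (n + j)‖ ≤ 2 * j := by
  have h1 := sum_range_add f N j
  have h2 := sum_range_add f j N
  rw [Nat.add_comm j N, h1] at h2
  have h3 : ∑ n ∈ range N, f (j + n) = ∑ n ∈ range N, f (n + j) :=
    sum_congr rfl fun n _ => by rw [Nat.add_comm]
  rw [h3] at h2
  have h4 : ∑ n ∈ range N, f n - ∑ n ∈ range N, f (n + j) =
      ∑ n ∈ range j, f n - ∑ n ∈ range j, f (N + n) := by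
    linear_combination h2
  rw [h4]
  have h5 : ∀ g : ℕ → ℂ, (∀ n, ‖g n‖ ≤ 1) → ‖∑ n ∈ range j, g n‖ ≤ j := by
    intro g hg
    refine (norm_sum_le_of_le _ fun n _ => hg n).trans (le_of_eq ?_)
    simp
  refine (norm_sub_le _ _).trans ?_
  have := h5 f hf
  have := h5 (fun n => f (N + n)) fun n => hf _
  linarith

lemma powers (b v : ℕ) (hv : 1 ≤ v) : ∃ n₁ k : ℕ, 1 ≤ k ∧ ∀ i : ℕ,
    (v : ℤ) ∣ (b : ℤ) ^ (n₁ + i * k) - (b : ℤ) ^ n₁ := by
  have : NeZero v := ⟨by omega⟩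
  obtain ⟨a, a', hne, he⟩ := Finite.exists_ne_map_eq_of_infinite (fun n : ℕ => (b : ZMod v) ^ n)
  wlog hlt : a < a' generalizing a a'
  · exact this a' a hne.symm he.symm (by omega)
  refine ⟨a, a' - a, by omega, fun i => ?_⟩
  have h1 : ∀ i : ℕ, (b : ZMod v) ^ (a + i * (a' - a)) = (b : ZMod v) ^ a := by
    intro i
    induction i with
    | zero => simp
    | succ i ih =>
      have h2 : a + (i + 1) * (a' - a) = (a + i * (a' - a)) + (a' - a) := by ring
      rw [h2, pow_add, ih, ← pow_add]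
      have h3 : a + (a' - a) = a' := by omega
      rw [h3]
      exact he.symm
  rw [← ZMod.intCast_eq_intCast_iff_dvd_sub]
  push_cast
  exact (h1 i).symm

/-- Wall's theorem -/
theorem wall {b : ℕ} (hb : 2 ≤ b) {y : ℝ} (hy : UD fun n => (b : ℝ) ^ n * y) (q r : ℚ) (hq : q ≠ 0) :
    Weyl fun n => (b : ℝ) ^ n * (q * y + r) := by
  intro h hh
  -- common denominator
  obtain ⟨v, u, w, hv, hu, hqv, hrv⟩ : ∃ (v : ℕ) (u w : ℤ), 1 ≤ v ∧ u ≠ 0 ∧ (v : ℝ) * q = u ∧
      (v : ℝ) * r = w := by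
    refine ⟨q.den * r.den, q.num * r.den, r.num * q.den, Nat.mul_pos q.pos r.pos, ?_, ?_, ?_⟩
    · exact mul_ne_zero (Rat.num_ne_zero.2 hq) (by exact_mod_cast r.den_nz)
    · have h1 : (q.den : ℝ) * q = q.num := by exact_mod_cast Rat.den_mul_eq_num q
      push_cast
      linear_combination (r.den : ℝ) * h1
    · have h1 : (r.den : ℝ) * r = r.num := by exact_mod_cast Rat.den_mul_eq_num r
      push_cast
      linear_combination (q.den : ℝ) * h1
  obtain ⟨n₁, k, hk, hd⟩ := powers b v hv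
  choose d hd using hd
  have hdR : ∀ i, (b : ℝ) ^ (n₁ + i * k) = (b : ℝ) ^ n₁ + v * d i := by
    intro i
    have h1 : (b : ℤ) ^ (n₁ + i * k) = (b : ℤ) ^ n₁ + v * d i := by linarith [hd i]
    exact_mod_cast h1
  have hdi : ∀ i i' : ℕ, i ≠ i' → d i - d i' ≠ 0 := by
    intro i i' hne h0
    have h1 : (b : ℝ) ^ (n₁ + i * k) = (b : ℝ) ^ (n₁ + i' * k) := by
      rw [hdR, hdR]
      have : d i = d i' := by linarith
      rw [this]
    have h2 : n₁ + i * k = n₁ + i' * k :=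
      pow_right_injective₀ (by positivity) (by exact_mod_cast (by omega : b ≠ 1)) h1
    apply hne
    have h3 : i * k = i' * k := by omega
    exact Nat.eq_of_mul_eq_mul_right (by omega) h3
  set z : ℝ := q * y + r with hz
  set f : ℕ → ℂ := fun n => ee (h * (b ^ n * z)) with hf
  have hf1 : ∀ n, ‖f n‖ = 1 := fun n => norm_ee _
  -- the correlations
  have hcorr : ∀ i i' n : ℕ, f (n + (n₁ + i * k)) * (starRingEnd ℂ) (f (n + (n₁ + i' * k))) =
      ee ((h * (d i - d i') * u : ℤ) * (b ^ n * y)) := by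
    intro i i' n
    simp only [hf]
    rw [← ee_neg, ← ee_add]
    have e1 : (h : ℝ) * (b ^ (n + (n₁ + i * k)) * z) + -(h * (b ^ (n + (n₁ + i' * k)) * z)) =
        ((h * (d i - d i') * u : ℤ) : ℝ) * (b ^ n * y) + ((h * (d i - d i') * w * b ^ n : ℤ) : ℝ) := by
      rw [pow_add (b : ℝ) n (n₁ + i * k), pow_add (b : ℝ) n (n₁ + i' * k), hdR, hdR, hz]
      push_cast
      linear_combination (h : ℝ) * (d i - d i') * b ^ n * y * hqv + (h : ℝ) * (d i - d i') * b ^ n * hrv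
    rw [e1, ee_add_int]
  rw [Metric.tendsto_atTop]
  intro ε hε
  obtain ⟨L, hL⟩ := exists_nat_gt (8 / ε ^ 2)
  have hL0 : (0 : ℝ) < L := lt_trans (by positivity) hL
  have hL1 : 1 ≤ L := by exact_mod_cast hL0
  -- the average of the correlations
  have hT : Tendsto (fun N : ℕ => 1 / (L : ℝ) ^ 2 * ∑ i ∈ range L, ∑ i' ∈ range L,
      ‖∑ n ∈ range N, ee ((h * (d i - d i') * u : ℤ) * ((b : ℝ) ^ n * y))‖ / N) atTop
      (𝓝 (1 / (L : ℝ) ^ 2 * ∑ i ∈ range L, ∑ i' ∈ range L, if i = i' then 1 else 0)) := by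
    refine Tendsto.const_mul _ (tendsto_finsetSum _ fun i _ => tendsto_finsetSum _ fun i' _ => ?_)
    by_cases hii : i = i'
    · rw [if_pos hii, hii]
      refine tendsto_const_nhds.congr' ?_
      filter_upwards [eventually_gt_atTop 0] with N hN
      have hN' : (N : ℝ) ≠ 0 := by positivity
      simp [ee_zero, hN']
    · rw [if_neg hii]
      exact weyl_int hy _ (mul_ne_zero (mul_ne_zero (by exact_mod_cast (by omega : h ≠ 0))
        (hdi i i' hii)) hu)
  have hval : 1 / (L : ℝ) ^ 2 * ∑ i ∈ range L, ∑ i' ∈ range L, (if i = i' then (1 : ℝ) else 0) = 1 / L := by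
    have : ∀ i ∈ range L, ∑ i' ∈ range L, (if i = i' then (1 : ℝ) else 0) = 1 := by
      intro i hi
      rw [sum_ite_eq, if_pos hi]
    rw [sum_congr rfl this, sum_const, card_range, nsmul_eq_mul, mul_one]
    field_simp
  rw [hval] at hT
  have hT2 := hT.eventually (gt_mem_nhds (by
    rw [div_lt_div_iff_of_pos_right hL0]
    norm_num : 1 / (L : ℝ) < 2 / L))
  set K : ℕ := n₁ + L * k with hK
  obtain ⟨N₁, hN₁⟩ := exists_nat_ge (2 * K / (ε / 4))
  obtain ⟨N₀, hN₀⟩ := eventually_atTop.1 (hT2.and ((eventually_gt_atTop 0).and (eventually_ge_atTop N₁)))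
  refine ⟨N₀, fun N hN => ?_⟩
  obtain ⟨h4, h5, h6⟩ := hN₀ N hN
  have hN0 : (0 : ℝ) < N := by exact_mod_cast h5
  rw [Real.dist_eq, sub_zero, abs_of_nonneg (by positivity), div_lt_iff₀ hN0]
  set P : ℕ → ℂ := fun n => 1 / L * ∑ i ∈ range L, f (n + (n₁ + i * k)) with hP
  have hLC : (L : ℂ) ≠ 0 := by exact_mod_cast (by omega : L ≠ 0)
  -- the averaged sum
  have h7 : ‖∑ n ∈ range N, f n - ∑ n ∈ range N, P n‖ ≤ 2 * K := by
    have e1 : ∑ n ∈ range N, f n - ∑ n ∈ range N, P n =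
        1 / L * ∑ i ∈ range L, (∑ n ∈ range N, f n - ∑ n ∈ range N, f (n + (n₁ + i * k))) := by
      rw [sum_sub_distrib, sum_const, card_range, nsmul_eq_mul]
      simp only [hP]
      rw [← mul_sum, sum_comm]
      field_simp
    rw [e1, norm_mul]
    have e2 : ‖(1 / L : ℂ)‖ = 1 / L := by simp
    rw [e2]
    have e3 : ‖∑ i ∈ range L, (∑ n ∈ range N, f n - ∑ n ∈ range N, f (n + (n₁ + i * k)))‖ ≤
        L * (2 * K) := by
      refine (norm_sum_le_of_le (f := fun i => ∑ n ∈ range N, f n - ∑ n ∈ range N, f (n + (n₁ + i * k)))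
        (n := fun _ => 2 * (K : ℝ)) _ fun i hi => ?_).trans (le_of_eq ?_)
      · refine (shift_bound f (fun n => (hf1 n).le) N _).trans ?_
        have : n₁ + i * k ≤ K := by
          have := mem_range.1 hi
          have : i * k ≤ L * k := Nat.mul_le_mul_right _ this.le
          omega
        have : ((n₁ + i * k : ℕ) : ℝ) ≤ K := by exact_mod_cast this
        linarith
      · rw [sum_const, card_range, nsmul_eq_mul]
    calc 1 / (L : ℝ) * _ ≤ 1 / (L : ℝ) * (L * (2 * K)) := mul_le_mul_of_nonneg_left e3 (by positivity)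
      _ = 2 * K := by field_simp
  -- the square of the averaged sum
  have h8 : ‖∑ n ∈ range N, P n‖ ^ 2 ≤ N ^ 2 * (2 / L) := by
    have e1 : ‖∑ n ∈ range N, P n‖ ^ 2 ≤ N * ∑ n ∈ range N, ‖P n‖ ^ 2 := by
      calc ‖∑ n ∈ range N, P n‖ ^ 2 ≤ (∑ n ∈ range N, ‖P n‖) ^ 2 :=
            pow_le_pow_left₀ (norm_nonneg _) (norm_sum_le _ _) 2
        _ ≤ (range N).card * ∑ n ∈ range N, ‖P n‖ ^ 2 := sq_sum_le_card_mul_sum_sq
        _ = _ := by rw [card_range]
    have e2 : ((∑ n ∈ range N, ‖P n‖ ^ 2 : ℝ) : ℂ) = 1 / (L : ℂ) ^ 2 * ∑ i ∈ range L, ∑ i' ∈ range L,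
        ∑ n ∈ range N, ee ((h * (d i - d i') * u : ℤ) * ((b : ℝ) ^ n * y)) := by
      have e3 : ∀ n, ((‖P n‖ ^ 2 : ℝ) : ℂ) = 1 / (L : ℂ) ^ 2 * ∑ i ∈ range L, ∑ i' ∈ range L,
          ee ((h * (d i - d i') * u : ℤ) * ((b : ℝ) ^ n * y)) := by
        intro n
        have e4 : ((‖P n‖ ^ 2 : ℝ) : ℂ) = P n * (starRingEnd ℂ) (P n) := by
          rw [Complex.mul_conj, Complex.normSq_eq_norm_sq]
        rw [e4]
        simp only [hP, map_mul, map_sum, map_div₀, map_one, Complex.conj_natCast]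
        rw [mul_mul_mul_comm, sum_mul_sum]
        have e5 : (1 / (L : ℂ)) * (1 / (L : ℂ)) = 1 / (L : ℂ) ^ 2 := by ring
        rw [e5]
        congr 1
        exact sum_congr rfl fun i _ => sum_congr rfl fun i' _ => hcorr i i' n
      rw [Complex.ofReal_sum, sum_congr rfl fun n _ => e3 n, ← mul_sum, sum_comm]
      congr 1
      refine sum_congr rfl fun i _ => ?_
      rw [sum_comm]
    have e6 : ∑ n ∈ range N, ‖P n‖ ^ 2 ≤ N * (1 / (L : ℝ) ^ 2 * ∑ i ∈ range L, ∑ i' ∈ range L,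
        ‖∑ n ∈ range N, ee ((h * (d i - d i') * u : ℤ) * ((b : ℝ) ^ n * y))‖ / N) := by
      have e7 : ∑ n ∈ range N, ‖P n‖ ^ 2 = ‖((∑ n ∈ range N, ‖P n‖ ^ 2 : ℝ) : ℂ)‖ := by
        rw [Complex.norm_real, Real.norm_eq_abs, abs_of_nonneg (sum_nonneg fun n _ => by positivity)]
      rw [e7, e2, norm_mul]
      have e8 : ‖1 / (L : ℂ) ^ 2‖ = 1 / (L : ℝ) ^ 2 := by simp
      rw [e8]
      have e9 : (N : ℝ) * (1 / (L : ℝ) ^ 2 * ∑ i ∈ range L, ∑ i' ∈ range L,
        ‖∑ n ∈ range N, ee ((h * (d i - d i') * u : ℤ) * ((b : ℝ) ^ n * y))‖ / N) =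
          1 / (L : ℝ) ^ 2 * ∑ i ∈ range L, ∑ i' ∈ range L,
        ‖∑ n ∈ range N, ee ((h * (d i - d i') * u : ℤ) * ((b : ℝ) ^ n * y))‖ := by
        rw [mul_left_comm]
        congr 1
        rw [mul_sum]
        refine sum_congr rfl fun i _ => ?_
        rw [mul_sum]
        refine sum_congr rfl fun i' _ => ?_
        exact mul_div_cancel₀ _ hN0.ne'
      rw [e9]
      refine mul_le_mul_of_nonneg_left ?_ (by positivity)
      refine (norm_sum_le _ _).trans (sum_le_sum fun i _ => norm_sum_le _ _)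
    have e10 : N * ∑ n ∈ range N, ‖P n‖ ^ 2 ≤ N * (N * (2 / L)) := by
      refine mul_le_mul_of_nonneg_left (e6.trans ?_) hN0.le
      exact mul_le_mul_of_nonneg_left h4.le hN0.le
    refine e1.trans (e10.trans (le_of_eq ?_))
    ring
  have h9 : ‖∑ n ∈ range N, P n‖ ≤ N * (ε / 2) := by
    have e1 : (N : ℝ) ^ 2 * (2 / L) ≤ (N * (ε / 2)) ^ 2 := by
      rw [mul_pow]
      refine mul_le_mul_of_nonneg_left ?_ (by positivity)
      rw [div_le_iff₀ hL0]
      rw [div_lt_iff₀ (by positivity)] at hL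
      nlinarith
    exact abs_le_of_sq_le_sq' (h8.trans e1) (by positivity) |>.2
  have h10 : (2 * K / (ε / 4) : ℝ) ≤ N := hN₁.trans (by exact_mod_cast h6)
  rw [div_le_iff₀ (by positivity)] at h10
  have h11 : ‖∑ n ∈ range N, f n‖ ≤ 2 * K + N * (ε / 2) := by
    have e1 : ∑ n ∈ range N, f n = (∑ n ∈ range N, f n - ∑ n ∈ range N, P n) + ∑ n ∈ range N, P n := by
      ring
    rw [e1]
    exact (norm_add_le _ _).trans (add_le_add h7 h9)
  have h12 : ∑ n ∈ range N, ee (h * ((b : ℝ) ^ n * (q * y + r))) = ∑ n ∈ range N, f n := rfl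
  rw [h12]
  nlinarith

end Pool.Agent.N915.WT
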